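import Pool.Agent.H280R3.SparseDiff

set_option autoImplicit false

open Filter Finset

namespace Pool.Agent.Results.MP_5a03e9_nt.NonSyndetic

open Classical in
/-- the number of elements of `S` in `[M, N)` -/
noncomputable def count (S : Set ℕ) (M N : ℕ) : ℕ := ((Ico M N).filter (fun k => k ∈ S)).card

/-- the upper Banach density of `E`: the limsup of `|E ∩ [M, N)| / (N - M)` as `N - M → ∞` -/
noncomputable def upperBanachDensity (E : Set ℕ) : ℝ :=
  limsup (fun q : ℕ × ℕ => (count E q.1 q.2 : ℝ) / ((q.2 : ℝ) - (q.1 : ℝ)))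
    (comap (fun q : ℕ × ℕ => (q.2 : ℝ) - (q.1 : ℝ)) atTop)

/-- the upper density of `A` relative to `E`: the limsup of `|A ∩ [1, N]| / |E ∩ [1, N]|` -/
noncomputable def relUpperDensity (E A : Set ℕ) : ℝ :=
  limsup (fun N : ℕ => (count A 1 (N + 1) : ℝ) / (count E 1 (N + 1) : ℝ)) atTop

/-- the difference set `A - A`, a set of integers -/
def diffSet (A : Set ℕ) : Set ℤ := {d | ∃ a ∈ A, ∃ b ∈ A, d = (a : ℤ) - (b : ℤ)}

/-- `S` is syndetic: for some `L ≥ 1` every block of `L` consecutive integers meets `S` -/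
def IsSyndetic (S : Set ℤ) : Prop := ∃ L : ℕ, 1 ≤ L ∧ ∀ m : ℤ, ∃ s ∈ S, m ≤ s ∧ s < m + L

lemma count_le (S : Set ℕ) (M N : ℕ) : count S M N ≤ N - M := by
  classical
  unfold count
  refine (card_filter_le _ _).trans ?_
  simp

lemma count_mono {S T : Set ℕ} (h : S ⊆ T) (M N : ℕ) : count S M N ≤ count T M N := by
  classical
  unfold count
  exact card_le_card (fun k hk => by
    simp only [mem_filter] at hk ⊢
    exact ⟨hk.1, h hk.2⟩)

lemma sparse_of (E : Set ℕ) (hE : upperBanachDensity E = 0) :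
    Pool.Agent.H280R3.SparseDiff.Sparse E := by
  intro ε hε
  have hb : IsBoundedUnder (· ≤ ·) (comap (fun q : ℕ × ℕ => (q.2 : ℝ) - (q.1 : ℝ)) atTop)
      (fun q : ℕ × ℕ => (count E q.1 q.2 : ℝ) / ((q.2 : ℝ) - (q.1 : ℝ))) := by
    refine ⟨1, ?_⟩
    rw [eventually_map, eventually_comap]
    filter_upwards [eventually_gt_atTop (0 : ℝ)] with r hr q hq
    rw [hq, div_le_one hr, ← hq]
    have h1 : q.1 ≤ q.2 := by
      have : (q.1 : ℝ) < q.2 := by linarith
      exact_mod_cast this.le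
    have h2 := count_le E q.1 q.2
    have h3 : ((count E q.1 q.2 : ℕ) : ℝ) ≤ ((q.2 - q.1 : ℕ) : ℝ) := by exact_mod_cast h2
    rwa [Nat.cast_sub h1] at h3
  have hlt := eventually_lt_of_limsup_lt (b := ε) (by
    show upperBanachDensity E < ε
    rw [hE]; exact hε) hb
  rw [eventually_comap, eventually_atTop] at hlt
  obtain ⟨r, hr⟩ := hlt
  obtain ⟨W, hW⟩ := exists_nat_gt r
  refine ⟨W + 1, fun n hn M => ?_⟩
  have hn' : (W : ℝ) + 1 ≤ n := by exact_mod_cast hn
  have h1 := hr (n : ℝ) (by linarith) (M, M + n) (by push_cast; ring)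
  have h2 : (0 : ℝ) < n := by
    have : (0 : ℝ) ≤ W := by positivity
    linarith
  simp only at h1
  rw [show (((M + n : ℕ) : ℝ) - (M : ℝ)) = n by push_cast; ring, div_lt_iff₀ h2] at h1
  exact h1.le

lemma cnt_eq (S : Set ℕ) (N : ℕ) :
    Pool.Agent.H280R3.SparseDiff.cnt S N = count S 1 (N + 1) := by
  classical
  unfold Pool.Agent.H280R3.SparseDiff.cnt count
  congr 1

lemma count_pos (E : Set ℕ) (hE : E.Infinite) : ∀ᶠ N : ℕ in atTop, 0 < count E 1 (N + 1) := by
  classical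
  obtain ⟨e, he, he1⟩ := hE.exists_gt 0
  filter_upwards [eventually_ge_atTop e] with N hN
  unfold count
  refine card_pos.2 ⟨e, ?_⟩
  simp only [mem_filter, mem_Ico]
  exact ⟨⟨he1, by omega⟩, he⟩

/-- Every infinite `E ⊆ ℕ` with `d^*(E) = 0` has, for every `η > 0`, a subset `A` of relative
upper density at least `1 - η` such that `A - A` is not syndetic. -/
theorem result (E : Set ℕ) (hE : E.Infinite) (hE0 : upperBanachDensity E = 0)
    (η : ℝ) (hη : 0 < η) :
    ∃ A ⊆ E, 1 - η ≤ relUpperDensity E A ∧ ¬ IsSyndetic (diffSet A) := by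
  obtain ⟨A, hAE, x, hx, hx0, hfr⟩ :=
    Pool.Agent.H280R3.SparseDiff.core E (sparse_of E hE0) η hη
  refine ⟨A, hAE, ?_, ?_⟩
  · refine le_limsup_of_frequently_le ?_ ?_
    · refine (hfr.and_eventually (count_pos E hE)).mono ?_
      rintro N ⟨h1, h2⟩
      rw [cnt_eq, cnt_eq] at h1
      have h3 : (0 : ℝ) < count E 1 (N + 1) := by exact_mod_cast h2
      rw [le_div_iff₀ h3]
      exact h1
    · refine ⟨1, ?_⟩
      rw [eventually_map]
      filter_upwards [count_pos E hE] with N hN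
      have h3 : (0 : ℝ) < count E 1 (N + 1) := by exact_mod_cast hN
      rw [div_le_one h3]
      exact_mod_cast count_mono hAE 1 (N + 1)
  · rintro ⟨L, hL, h⟩
    obtain ⟨s, ⟨a, ha, b, hb, rfl⟩, h1, h2⟩ := h (x L)
    exact hx L a ha b hb ⟨by omega, by omega⟩

end Pool.Agent.Results.MP_5a03e9_nt.NonSyndetic
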